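import Pool.Agent.H413.G.R_seed8.H494R3.NK.Stmts

/-!
Project H494-NK (helper494), task `TaskClose`: spectral projections of a selfadjoint element with
finite spectrum close to `x + 3 N p`.
-/

set_option autoImplicit false

namespace Pool.Agent.H823R3.NK

open Pool.Agent.H494R3.NK

universe u

lemma proj_norm {U : Type u} [CStarAlgebra U] {e : U} (h1 : e * e = e) (h2 : star e = e) :
    ‖e‖ ≤ 1 := by
  have h := CStarRing.norm_star_mul_self (x := e)
  rw [h2, h1] at h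
  nlinarith [norm_nonneg e]

section order

attribute [local instance] CStarAlgebra.spectralOrder CStarAlgebra.spectralOrderedRing

lemma spec_lower {U : Type u} [CStarAlgebra U] (p x h : U) (N δ : ℝ) (hN : 0 < N)
    (hδN : δ ≤ N) (hp : p * p = p) (hps : star p = p) (hpx : p * x = x) (hxp : x * p = x)
    (hxs : star x = x) (hxN : ‖x‖ ≤ N) (hh : IsSelfAdjoint h)
    (hd : ‖x + (3 * N) • p - h‖ ≤ δ) : ∀ t ∈ spectrum ℝ h, -N ≤ t := by
  refine (algebraMap_le_iff_le_spectrum (r := -N) (a := h) hh).1 ?_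
  have hp0 : 0 ≤ p := by
    have := star_mul_self_nonneg p
    rwa [hps, hp] at this
  have hx1 : 0 ≤ x + algebraMap ℝ U N := by
    have h1 := IsSelfAdjoint.neg_algebraMap_norm_le_self (a := x) hxs
    have h2 : algebraMap ℝ U ‖x‖ ≤ algebraMap ℝ U N := algebraMap_mono _ hxN
    have h3 : 0 ≤ x + algebraMap ℝ U ‖x‖ := by
      have := add_le_add_left h1 (algebraMap ℝ U ‖x‖)
      simpa using this
    exact h3.trans (by gcongr)
  have hx2 : 0 ≤ x + N • p := by
    have := star_left_conjugate_nonneg hx1 p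
    have e : star p * (x + algebraMap ℝ U N) * p = x + N • p := by
      rw [hps, mul_add, add_mul, hpx, hxp, Algebra.algebraMap_eq_smul_one, mul_smul_comm,
        mul_one, smul_mul_assoc, hp]
    rwa [e] at this
  have hy : 0 ≤ x + (3 * N) • p := by
    have e : x + (3 * N) • p = (x + N • p) + (2 * N) • p := by
      rw [show (3 * N) = N + 2 * N by ring, add_smul, add_assoc]
    rw [e]
    have : 0 ≤ (2 * N) • p := smul_nonneg (by positivity) hp0
    exact add_nonneg hx2 this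
  have hs : IsSelfAdjoint (x + (3 * N) • p - h) := by
    have h1 : IsSelfAdjoint x := hxs
    have h2 : IsSelfAdjoint p := hps
    exact (h1.add ((IsSelfAdjoint.all (3 * N)).smul h2)).sub hh
  have h3 := hs.le_algebraMap_norm_self
  have h4 : algebraMap ℝ U ‖x + (3 * N) • p - h‖ ≤ algebraMap ℝ U N :=
    algebraMap_mono _ (hd.trans hδN)
  have h5 : x + (3 * N) • p - h ≤ algebraMap ℝ U N := h3.trans h4
  rw [map_neg, neg_le_iff_add_nonneg]
  have h6 : 0 ≤ algebraMap ℝ U N - (x + (3 * N) • p - h) := sub_nonneg.2 h5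
  have h7 := add_nonneg h6 hy
  have e : algebraMap ℝ U N - (x + (3 * N) • p - h) + (x + (3 * N) • p) =
    h + algebraMap ℝ U N := by abel
  rwa [e] at h7

end order

/-- the inverse of `x + 3 N p` in the corner -/
lemma exists_inv {U : Type u} [CStarAlgebra U] (p x : U) (N : ℝ) (hN : 0 < N)
    (hp : p * p = p) (hps : star p = p) (hpx : p * x = x)
    (hxN : ‖x‖ ≤ N) : ∃ w : U, (x + (3 * N) • p) * w = p ∧ ‖w‖ ≤ 1 / (2 * N) := by
  have h1 : ‖(-(1 / (3 * N))) • x‖ < 1 := by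
    rw [norm_smul, Real.norm_eq_abs, abs_neg, abs_of_pos (by positivity)]
    have : 1 / (3 * N) * ‖x‖ ≤ 1 / (3 * N) * N := by gcongr
    have e : 1 / (3 * N) * N = 1 / 3 := by field_simp
    rw [e] at this
    linarith
  obtain ⟨u, hu⟩ := isUnit_one_sub_of_norm_lt_one h1
  -- `u = 1 + x/(3N)`
  have hu' : (3 * N) • (u : U) = x + (3 * N) • (1 : U) := by
    rw [hu, smul_sub, smul_smul]
    have e : 3 * N * -(1 / (3 * N)) = -1 := by field_simp
    rw [e]
    simp [add_comm]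
  set v : U := (1 / (3 * N)) • ((u⁻¹ : Uˣ) : U) with hv
  have hav : (x + (3 * N) • (1 : U)) * v = 1 := by
    rw [← hu', hv, smul_mul_smul_comm, Units.mul_inv]
    have e : 3 * N * (1 / (3 * N)) = 1 := by field_simp
    rw [e, one_smul]
  have hn1 : ‖(1 : U)‖ ≤ 1 := proj_norm (by simp) (by simp)
  have hpn : ‖p‖ ≤ 1 := proj_norm hp hps
  have hvn : ‖v‖ ≤ 1 / (2 * N) := by
    have e : (3 * N) • v = 1 - x * v := by
      rw [add_mul, smul_mul_assoc, one_mul] at hav
      rw [← hav]; abel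
    have h2 : 3 * N * ‖v‖ ≤ 1 + N * ‖v‖ := by
      calc 3 * N * ‖v‖ = ‖(3 * N) • v‖ := by
            rw [norm_smul (3 * N) v, Real.norm_eq_abs, abs_of_pos (by positivity)]
        _ = ‖1 - x * v‖ := by rw [e]
        _ ≤ ‖(1 : U)‖ + ‖x * v‖ := norm_sub_le _ _
        _ ≤ 1 + N * ‖v‖ := by
            refine add_le_add hn1 ((norm_mul_le _ _).trans ?_)
            gcongr
    rw [le_div_iff₀ (by positivity)]
    nlinarith
  refine ⟨v * p, ?_, ?_⟩
  · have e : x + (3 * N) • p = p * (x + (3 * N) • (1 : U)) := by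
      rw [mul_add, hpx, mul_smul_comm, mul_one]
    rw [e, mul_assoc, ← mul_assoc _ v p, hav, one_mul, hp]
  · calc ‖v * p‖ ≤ ‖v‖ * ‖p‖ := norm_mul_le _ _
      _ ≤ 1 / (2 * N) * 1 := by gcongr
      _ = 1 / (2 * N) := mul_one _

theorem taskClose (hs : TaskSpectral.{u}) : TaskClose.{u} := by
  intro U _ p x h N δ hN hδ hδN hp hps hpx hxp hxs hxN hh hfin hd
  obtain ⟨S, g, hS, hg, horth, hgh, hcomm, hnorm, w2, hw2, hw2n⟩ :=
    hs U h N hN hh hfin (spec_lower p x h N δ hN hδN hp hps hpx hxp hxs hxN hh hd)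
  obtain ⟨w, hw, hwn⟩ := exists_inv p x N hN hp hps hpx hxN
  have hpn : ‖p‖ ≤ 1 := proj_norm hp hps
  have hp1n : ‖1 - p‖ ≤ 1 := proj_norm
    (by rw [mul_sub, sub_mul, sub_mul, hp]; simp) (by rw [star_sub, star_one, hps])
  set y : U := x + (3 * N) • p with hy
  set q : U := ∑ μ ∈ S, g μ with hq
  have hyp : y * p = y := by rw [hy, add_mul, hxp, smul_mul_assoc, hp]
  have hqq : q * q = q := by
    rw [hq, Finset.sum_mul_sum]
    refine Finset.sum_congr rfl fun μ hμ => ?_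
    rw [Finset.sum_eq_single μ (fun ν hν hne => horth μ hμ ν hν (Ne.symm hne))
      (fun h => absurd hμ h)]
    exact (hg μ hμ).1
  have hqs : star q = q := by
    rw [hq, star_sum]
    exact Finset.sum_congr rfl fun μ hμ => (hg μ hμ).2
  have hqn : ‖q‖ ≤ 1 := proj_norm hqq hqs
  have h1qq : (1 - q) * (1 - q) = 1 - q := by rw [mul_sub, sub_mul, sub_mul, hqq]; simp
  have h1qn : ‖1 - q‖ ≤ 1 := proj_norm h1qq (by rw [star_sub, star_one, hqs])
  have hcomm' : (1 - q) * h = h * (1 - q) := by rw [sub_mul, mul_sub, hcomm, one_mul, mul_one]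
  set z : U := (1 - q) * p with hz
  have hzp : z * p = z := by rw [hz, mul_assoc, hp]
  have hqz : (1 - q) * z = z := by rw [hz, ← mul_assoc, h1qq]
  -- the equation for `z`
  have hzeq : z = h * (1 - q) * z * w + (1 - q) * (y - h) * p * w := by
    have e1 : z * y = h * (1 - q) * z + (1 - q) * (y - h) * p := by
      have a1 : z * y = (1 - q) * y * p := by
        have : p * y = y := by rw [hy, mul_add, hpx, mul_smul_comm, hp]
        rw [hz, mul_assoc, this, mul_assoc, hyp]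
      have a2 : h * (1 - q) * z = (1 - q) * h * p := by
        rw [mul_assoc, hqz, hz, ← mul_assoc, hcomm']
      have a3 : (1 - q) * (y - h) * p = (1 - q) * y * p - (1 - q) * h * p := by
        rw [mul_sub (1 - q) y h, sub_mul]
      rw [a1, a2, a3]
      abel
    calc z = z * p := hzp.symm
      _ = z * (y * w) := by rw [hw]
      _ = (z * y) * w := (mul_assoc z y w).symm
      _ = _ := by rw [e1, add_mul]
  have hzn : ‖z‖ ≤ δ / N := by
    have a1 : ‖h * (1 - q) * z * w‖ ≤ ‖z‖ / 2 := by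
      calc ‖h * (1 - q) * z * w‖ ≤ ‖h * (1 - q) * z‖ * ‖w‖ := norm_mul_le _ _
        _ ≤ ‖h * (1 - q)‖ * ‖z‖ * ‖w‖ := by gcongr; exact norm_mul_le _ _
        _ ≤ N * ‖z‖ * (1 / (2 * N)) := by gcongr
        _ = ‖z‖ / 2 := by field_simp
    have a2 : ‖(1 - q) * (y - h) * p * w‖ ≤ δ / (2 * N) := by
      calc ‖(1 - q) * (y - h) * p * w‖ ≤ ‖(1 - q) * (y - h) * p‖ * ‖w‖ := norm_mul_le _ _
        _ ≤ ‖(1 - q) * (y - h)‖ * ‖p‖ * ‖w‖ := by gcongr; exact norm_mul_le _ _
        _ ≤ (‖1 - q‖ * ‖y - h‖) * ‖p‖ * ‖w‖ := by gcongr; exact norm_mul_le _ _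
        _ ≤ (1 * δ) * 1 * (1 / (2 * N)) := by gcongr
        _ = δ / (2 * N) := by ring
    have a3 : ‖z‖ ≤ ‖z‖ / 2 + δ / (2 * N) := by
      calc ‖z‖ = ‖h * (1 - q) * z * w + (1 - q) * (y - h) * p * w‖ := by rw [← hzeq]
        _ ≤ _ := (norm_add_le _ _).trans (add_le_add a1 a2)
    have a4 : δ / N = 2 * (δ / (2 * N)) := by field_simp
    rw [a4]; linarith
  have hqp : ‖q * (1 - p)‖ ≤ δ / N := by
    have e : q * (1 - p) = w2 * q * (h - y) * (1 - p) := by
      have b1 : y * (1 - p) = 0 := by rw [mul_sub, mul_one, hyp, sub_self]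
      have b2 : w2 * q * (h - y) * (1 - p) = w2 * (h * q) * (1 - p) := by
        rw [mul_sub (w2 * q) h y, sub_mul, mul_assoc (w2 * q) y, b1, mul_zero, sub_zero,
          mul_assoc w2 q h, hcomm]
      rw [b2, hw2]
    rw [e]
    calc ‖w2 * q * (h - y) * (1 - p)‖ ≤ ‖w2 * q * (h - y)‖ * ‖1 - p‖ := norm_mul_le _ _
      _ ≤ (‖w2 * q‖ * ‖h - y‖) * ‖1 - p‖ := by gcongr; exact norm_mul_le _ _
      _ ≤ ((‖w2‖ * ‖q‖) * ‖h - y‖) * ‖1 - p‖ := by gcongr; exact norm_mul_le _ _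
      _ ≤ ((1 / N * 1) * δ) * 1 := by
          have : ‖h - y‖ ≤ δ := by rw [norm_sub_rev]; exact hd
          gcongr
      _ = δ / N := by ring
  refine ⟨S, g, fun μ hμ => ⟨(hS μ hμ).1, (hS μ hμ).2.trans ?_⟩, hg, horth, ?_, ?_⟩
  · calc ‖h‖ = ‖y - (y - h)‖ := by rw [sub_sub_cancel]
      _ ≤ ‖y‖ + ‖y - h‖ := norm_sub_le _ _
      _ ≤ (‖x‖ + ‖(3 * N) • p‖) + δ := add_le_add (norm_add_le _ _) hd
      _ ≤ (N + 3 * N * 1) + N := by
          rw [norm_smul, Real.norm_eq_abs, abs_of_pos (by positivity : (0 : ℝ) < 3 * N)]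
          gcongr
      _ = 5 * N := by ring
  · have e : p - q = z - q * (1 - p) := by rw [hz, sub_mul, mul_sub]; simp
    calc ‖p - q‖ = ‖z - q * (1 - p)‖ := by rw [e]
      _ ≤ ‖z‖ + ‖q * (1 - p)‖ := norm_sub_le _ _
      _ ≤ δ / N + δ / N := add_le_add hzn hqp
      _ = 2 * δ / N := by ring
  · have e : y - (∑ μ ∈ S, μ • g μ) * p = (y - h) * p + h * (1 - q) * z := by
      have c1 : (y - h) * p = y - h * p := by rw [sub_mul, hyp]
      have c2 : h * (1 - q) * z = h * p - h * q * p := by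
        rw [mul_assoc h (1 - q) z, hqz, hz, sub_mul, one_mul, mul_sub, mul_assoc h q p]
      rw [← hgh, c1, c2]
      abel
    calc ‖y - (∑ μ ∈ S, μ • g μ) * p‖ = ‖(y - h) * p + h * (1 - q) * z‖ := by rw [e]
      _ ≤ ‖(y - h) * p‖ + ‖h * (1 - q) * z‖ := norm_add_le _ _
      _ ≤ ‖y - h‖ * ‖p‖ + ‖h * (1 - q)‖ * ‖z‖ := add_le_add (norm_mul_le _ _) (norm_mul_le _ _)
      _ ≤ δ * 1 + N * (δ / N) := by gcongr
      _ = 2 * δ := by field_simp; ring

end Pool.Agent.H823R3.NK
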